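import Pool.Agent.Run7.h682.Red

/-!
# Uniform Lipschitz estimate in multiscale periodic homogenization

We give a positive answer to question Q1 of `MP_a73848_an`: weak solutions of
`-div (A(x, x/ε₁, …, x/εₙ) ∇u) = 0` in the unit ball satisfy an interior Lipschitz estimate whose
constant depends only on `d, n, Λ, γ, L`, for completely arbitrary scales `ε₁, …, εₙ > 0`.

Idea of the proof.  At a scale `R` which has an approximate period `t ~ θ² R` with an error of
order `θ ^ (2 (d + 1))` in the coefficients, one applies the Caccioppoli inequality to `d + 1`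
iterated difference quotients with steps `t`, together with a discrete Sobolev inequality, and gets
an affine approximation of the solution on the ball of radius `θ R` with relative error `O(θ²)`.
By the pigeonhole principle on subset sums, for `θ = 2⁻ᵐ` all but `O(m)` dyadic scales `R` have
this property, uniformly in the `εᵢ`.  Hence the best factor `θ(R)` available at the dyadic scales
is summable, uniformly in the `εᵢ`, and a Campanato type iteration gives the Lipschitz bound.
-/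

set_option autoImplicit false

open MeasureTheory Metric

namespace Pool.Agent.Results.MP_a73848_an.UniformLipschitz

/-- `ℝ^d` with its Euclidean norm. -/
abbrev E (d : ℕ) : Type := EuclideanSpace ℝ (Fin d)

/-- The hypotheses on the matrix field `A(x, y₁, …, yₙ)`: ellipticity
`Λ|ξ|² ≤ A(x,y)ξ·ξ ≤ Λ⁻¹|ξ|²`, periodicity under integer translations of each of the variables
`y₁, …, yₙ`, and (entrywise) Hölder continuity in all the variables with exponent `γ` and
constant `L`.  No symmetry is assumed. -/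
structure Admissible (d n : ℕ) (Λ γ L : ℝ)
    (A : E d → (Fin n → E d) → Matrix (Fin d) (Fin d) ℝ) : Prop where
  elliptic_lower : ∀ (x : E d) (y : Fin n → E d) (ξ : E d),
    Λ * ‖ξ‖ ^ 2 ≤ ∑ i, ∑ j, A x y i j * ξ j * ξ i
  elliptic_upper : ∀ (x : E d) (y : Fin n → E d) (ξ : E d),
    ∑ i, ∑ j, A x y i j * ξ j * ξ i ≤ Λ⁻¹ * ‖ξ‖ ^ 2
  periodic : ∀ (x : E d) (y : Fin n → E d) (z : Fin n → Fin d → ℤ),
    A x (fun k => y k + WithLp.toLp 2 (fun i => (z k i : ℝ))) = A x y
  holder : ∀ (x : E d) (y : Fin n → E d) (x' : E d) (y' : Fin n → E d) (i j : Fin d),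
    |A x y i j - A x' y' i j| ≤ L * (‖x - x'‖ + ∑ k, ‖y k - y' k‖) ^ γ

/-- The coefficients `A_ε(x) = A(x, x/ε₁, …, x/εₙ)`. -/
noncomputable def multiscale {d n : ℕ} (A : E d → (Fin n → E d) → Matrix (Fin d) (Fin d) ℝ)
    (ε : Fin n → ℝ) (x : E d) : Matrix (Fin d) (Fin d) ℝ := A x (fun k => (ε k)⁻¹ • x)

/-- Test functions: smooth functions with compact support in the open unit ball. -/
structure IsTest (d : ℕ) (φ : E d → ℝ) : Prop where
  smooth : ContDiff ℝ (⊤ : ℕ∞) φ
  compact : HasCompactSupport φ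
  support : tsupport φ ⊆ ball 0 1

/-- The `i`-th derivative of `φ`. -/
noncomputable def deriv_i {d : ℕ} (i : Fin d) (φ : E d → ℝ) (x : E d) : ℝ :=
  fderiv ℝ φ x (EuclideanSpace.single i 1)

/-- `u ∈ H¹(B₁)` is a weak solution of `-div (a ∇u) = 0` in the unit ball `B₁`: `u ∈ L²(B₁)` has a
weak gradient `g ∈ L²(B₁)`, and `∫ a g · ∇φ = 0` for all test functions `φ`. -/
def IsWeakSolution {d : ℕ} (a : E d → Matrix (Fin d) (Fin d) ℝ) (u : E d → ℝ) : Prop :=
  MemLp u 2 (volume.restrict (ball 0 1)) ∧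
  ∃ g : E d → E d, MemLp g 2 (volume.restrict (ball 0 1)) ∧
    (∀ φ : E d → ℝ, IsTest d φ → ∀ i : Fin d,
      ∫ x in ball 0 1, u x * deriv_i i φ x = - ∫ x in ball 0 1, g x i * φ x) ∧
    (∀ φ : E d → ℝ, IsTest d φ →
      ∫ x in ball 0 1, ∑ i, ∑ j, a x i j * g x j * deriv_i i φ x = 0)

/-- **Uniform Lipschitz estimate** (positive answer to Q1): there is a constant `C` depending only
on `d, n, Λ, γ, L` such that for all admissible coefficients `A`, all scales `ε₁, …, εₙ > 0`
(without any relation between them) and all weak solutions `u ∈ H¹(B₁)` of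
`-div (A(x, x/ε₁, …, x/εₙ) ∇u) = 0` in `B₁`, one has
`|u(x) - u(y)| ≤ C |x - y| ‖u‖_{L²(B₁)}` for all `x, y ∈ B_{1/2}` (for a representative `v` of
`u`). -/
theorem result (d n : ℕ) (Λ γ L : ℝ) (hΛ : 0 < Λ) (hγ : 0 < γ) (hγ1 : γ ≤ 1) (hL : 0 < L) :
    ∃ C : ℝ, 0 < C ∧ ∀ A : E d → (Fin n → E d) → Matrix (Fin d) (Fin d) ℝ,
      Admissible d n Λ γ L A → ∀ ε : Fin n → ℝ, (∀ k, 0 < ε k) →
      ∀ u : E d → ℝ, IsWeakSolution (multiscale A ε) u →
      ∃ v : E d → ℝ, v =ᵐ[volume.restrict (ball 0 1)] u ∧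
        ∀ x ∈ ball (0 : E d) (1 / 2), ∀ y ∈ ball (0 : E d) (1 / 2),
          |v x - v y| ≤ C * ‖x - y‖ * Real.sqrt (∫ z in ball (0 : E d) 1, u z ^ 2) := by
  obtain ⟨C, hC, H⟩ := Run7.h682.reduction d n hΛ hγ hγ1 hL.le
  refine ⟨C + 1, by linarith, ?_⟩
  intro A hA ε _ u hu
  obtain ⟨hu2, g, hg2, hw, he⟩ := hu
  obtain ⟨v, hv1, hv2⟩ := H A ⟨hA.elliptic_lower, hA.elliptic_upper, hA.periodic, hA.holder⟩
    (fun k => (ε k)⁻¹) u g hu2 hg2
    (fun φ hφ i => by
      have h := hw φ ⟨hφ.smooth, hφ.comp, hφ.sub⟩ i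
      refine h.trans ?_
      congr 2
      funext x
      ring)
    (fun φ hφ => he φ ⟨hφ.smooth, hφ.comp, hφ.sub⟩)
  refine ⟨v, hv1, fun x hx y hy => (hv2 x hx y hy).trans ?_⟩
  gcongr
  linarith

end Pool.Agent.Results.MP_a73848_an.UniformLipschitz
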